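import Pool.Agent.Helper20.QD.St6

/-!
# Project QD, part B, module DBJ: global bijectivity
-/

open Filter Topology Matrix Set Metric
open scoped ComplexConjugate

namespace Pool.Agent.Helper40.QD

open Pool.Agent.Helper35.PM Pool.Agent.Helper20.QD

/-- the real derivative in terms of `dz` and `dzb` -/
lemma fderiv_eq_dz (E : ℂ → ℂ) (z v : ℂ) :
    fderiv ℝ E z v = dz E z * v + dzb E z * conj v := by
  have h1 : v = (v.re : ℝ) • (1 : ℂ) + (v.im : ℝ) • Complex.I := by
    apply Complex.ext <;> simp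
  have h2 : fderiv ℝ E z v = (v.re : ℂ) * fderiv ℝ E z 1 + (v.im : ℂ) * fderiv ℝ E z Complex.I := by
    conv_lhs => rw [h1]
    rw [map_add, map_smul, map_smul, Complex.real_smul, Complex.real_smul]
  have h3 : v = v.re + v.im * Complex.I := (Complex.re_add_im v).symm
  have h4 : conj v = v.re - v.im * Complex.I := by
    apply Complex.ext <;> simp
  rw [h2, h4]
  conv_rhs => rw [h3]
  unfold dz dzb
  simp only [Complex.add_re, Complex.ofReal_re, Complex.mul_re, Complex.I_re, mul_zero,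
    Complex.ofReal_im, Complex.I_im, mul_one, sub_self, add_zero, Complex.add_im, Complex.mul_im,
    zero_add]
  linear_combination ((v.im : ℂ) * fderiv ℝ E z Complex.I) * Complex.I_sq

/-- a real linear endomorphism `v ↦ a v + b conj v`, `|b| < |a|`, is injective -/
lemma inj_of_lt {a b v : ℂ} (h : ‖b‖ < ‖a‖) (hv : a * v + b * conj v = 0) : v = 0 := by
  by_contra h0
  have h1 : a * v = -(b * conj v) := by linear_combination hv
  have h2 : ‖a‖ * ‖v‖ = ‖b‖ * ‖v‖ := by
    have := congrArg norm h1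
    rwa [norm_mul, norm_neg, norm_mul, Complex.norm_conj] at this
  have h3 : 0 < ‖v‖ := norm_pos_iff.2 h0
  have := mul_right_cancel₀ h3.ne' h2
  linarith

lemma locHom {E : ℂ → ℂ} (hE : ContDiffOn ℝ 1 E D) (hd : ∀ z ∈ D, ‖dzb E z‖ < ‖dz E z‖) :
    IsLocalHomeomorphOn E D := by
  refine IsLocalHomeomorphOn.mk E D ?_
  intro z hz
  have h1 : ContDiffAt ℝ 1 E z := hE.contDiffAt (isOpen_ball.mem_nhds hz)
  have h2 : Function.Injective (fderiv ℝ E z : ℂ →ₗ[ℝ] ℂ) := by
    rw [injective_iff_map_eq_zero]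
    intro v hv
    have hv' : fderiv ℝ E z v = 0 := hv
    rw [fderiv_eq_dz] at hv'
    exact inj_of_lt (hd z hz) hv'
  let e : ℂ ≃L[ℝ] ℂ := (LinearEquiv.ofInjectiveEndo _ h2).toContinuousLinearEquiv
  have h3 : HasFDerivAt E (e : ℂ →L[ℝ] ℂ) z := by
    have h4 : (e : ℂ →L[ℝ] ℂ) = fderiv ℝ E z := by
      ext v; rfl
    rw [h4]
    exact (h1.differentiableAt one_ne_zero).hasFDerivAt
  exact ⟨h1.toOpenPartialHomeomorph E h3 one_ne_zero,
    ContDiffAt.mem_toOpenPartialHomeomorph_source h1 h3 one_ne_zero, fun x _ => rfl⟩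

/-- MODULE DBJ. -/
theorem hDBJ : StDBJ := by
  intro E hEc hED hES hE1 hd
  -- the map between the subtypes
  let p : D → D := fun z => ⟨E z, hED z.2⟩
  have hpE : ∀ z : D, (p z : ℂ) = E z := fun _ => rfl
  have hEcD : ContinuousOn E D := hEc.mono ball_subset_closedBall
  have hpc : Continuous p := (continuousOn_iff_continuous_domRestrict.1 hEcD).subtype_mk _
  have hval : IsLocalHomeomorph (Subtype.val : D → ℂ) :=
    (isOpen_ball (x := (0 : ℂ)) (ε := 1)).isOpenEmbedding_subtypeVal.isLocalHomeomorph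
  have hlocon := locHom hE1 hd
  have hloc : IsLocalHomeomorph p := by
    have h1 : IsLocalHomeomorph ((Subtype.val : D → ℂ) ∘ p) := by
      rw [isLocalHomeomorph_iff_isLocalHomeomorphOn_univ]
      have h2 : (Subtype.val : D → ℂ) ∘ p = E ∘ (Subtype.val : D → ℂ) := rfl
      rw [h2]
      exact hlocon.comp hval.isLocalHomeomorphOn (fun z _ => z.2)
    exact IsLocalHomeomorph.of_comp h1 hval hpc
  -- compactness
  have hcpt : ∀ K : Set ℂ, IsClosed K → IsCompact (DD ∩ K) := fun K hK =>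
    (isCompact_closedBall (0 : ℂ) 1).inter_right hK
  have hin : ∀ z ∈ DD, E z ∈ D → z ∈ D := by
    intro z hz h
    by_contra h0
    have h1 : z ∈ SS := by
      rw [mem_sphere]
      rw [mem_closedBall] at hz
      rw [mem_ball, not_lt] at h0
      exact le_antisymm hz h0
    have h2 := hES h1
    rw [mem_sphere] at h2
    rw [mem_ball] at h
    linarith
  have hclosed : IsClosedMap p := by
    intro C hC
    obtain ⟨K, hK, rfl⟩ := isClosed_induced_iff.1 hC
    have h1 : IsClosed (E '' (DD ∩ K)) :=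
      ((hcpt K hK).image_of_continuousOn (hEc.mono inter_subset_left)).isClosed
    have h2 : p '' (Subtype.val ⁻¹' K) = Subtype.val ⁻¹' (E '' (DD ∩ K)) := by
      ext w
      constructor
      · rintro ⟨z, hz, rfl⟩
        exact ⟨z, ⟨ball_subset_closedBall z.2, hz⟩, rfl⟩
      · rintro ⟨z, ⟨hz, hzK⟩, hzw⟩
        have h3 : E z ∈ D := by rw [hzw]; exact w.2
        exact ⟨⟨z, hin z hz h3⟩, hzK, Subtype.ext hzw⟩
    rw [h2]
    exact h1.preimage continuous_subtype_val
  have hfin : ∀ w : D, (p ⁻¹' {w}).Finite := by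
    intro w
    have h1 : IsCompact (p ⁻¹' {w}) := by
      rw [Topology.IsEmbedding.subtypeVal.isCompact_iff]
      have h2 : Subtype.val '' (p ⁻¹' {w}) = DD ∩ E ⁻¹' {(w : ℂ)} := by
        ext z
        constructor
        · rintro ⟨x, hx, rfl⟩
          exact ⟨ball_subset_closedBall x.2, congrArg Subtype.val hx⟩
        · rintro ⟨hz, hzw⟩
          have h3 : E z ∈ D := by
            rw [show E z = w from hzw]; exact w.2
          exact ⟨⟨z, hin z hz h3⟩, Subtype.ext hzw, rfl⟩
      rw [h2]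
      obtain ⟨u, hu, huv⟩ := (continuousOn_iff_isClosed.1 hEc) {(w : ℂ)} isClosed_singleton
      rw [inter_comm, huv, inter_comm]
      exact hcpt u hu
    refine h1.finite (IsDiscrete.of_openPartialHomeomorph p Subset.rfl ?_)
    intro e _
    obtain ⟨φ, h3, h4⟩ := hloc e
    exact ⟨φ, h3, h4.symm⟩
  have hcov : IsCoveringMap p := by
    rw [isCoveringMap_iff_isCoveringMapOn_univ]
    refine hclosed.isCoveringMapOn_of_isLocalHomeomorphOn (fun w _ => hfin w) ?_
    exact hloc.isLocalHomeomorphOn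
  have : LocallyPathConnectedSpace D := isOpen_ball.locallyPathConnectedSpace
  have : ContractibleSpace D := (convex_ball (0 : ℂ) 1).contractibleSpace ⟨0, by simp⟩
  let z0 : D := ⟨0, by simp⟩
  obtain ⟨s, ⟨hs0, hs⟩, -⟩ := hcov.existsUnique_continuousMap_lifts (ContinuousMap.id D) (p z0) z0 rfl
  have hs' : ∀ w : D, p (s w) = w := fun w => congrFun hs w
  obtain ⟨t, -, ht⟩ := hcov.existsUnique_continuousMap_lifts (⟨p, hpc⟩ : C(D, D)) z0 z0 rfl
  have h1 : ContinuousMap.id D = t := ht (ContinuousMap.id D) ⟨rfl, rfl⟩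
  have h2 : s.comp ⟨p, hpc⟩ = t := by
    refine ht _ ⟨hs0, ?_⟩
    funext z
    exact hs' (p z)
  have h3 : ∀ z : D, s (p z) = z := by
    intro z
    have h4 : s.comp ⟨p, hpc⟩ = ContinuousMap.id D := h2.trans h1.symm
    exact congrArg (fun f : C(D, D) => f z) h4
  refine ⟨hED, ?_, ?_⟩
  · intro a ha b hb hab
    have h5 : p ⟨a, ha⟩ = p ⟨b, hb⟩ := Subtype.ext hab
    have h6 := h3 ⟨a, ha⟩
    rw [h5, h3] at h6
    exact (congrArg Subtype.val h6).symm
  · intro w hw
    exact ⟨s ⟨w, hw⟩, (s ⟨w, hw⟩).2, congrArg Subtype.val (hs' ⟨w, hw⟩)⟩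

end Pool.Agent.Helper40.QD
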