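import Pool.Agent.Helper20.QD.St1

/-!
# Project QD, part B, module TMO: inversion exchanges the sides of a Jordan curve
-/

open Filter Topology Matrix Set Metric
open scoped ComplexConjugate

namespace Pool.Agent.Helper40.QD

open Pool.Agent.Helper35.PM Pool.Agent.Helper20.QD

/-- a nonzero constant has a logarithm -/
lemma logOn_const (K : Set ℂ) {c : ℂ} (hc : c ≠ 0) : LogOn K (fun _ => c) :=
  ⟨fun _ => Complex.log c, continuousOn_const, fun _ _ => (Complex.exp_log hc).symm⟩

lemma M_inj (p : ℂ) : Function.Injective (fun z : ℂ => 1 / (z - p)) := by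
  intro z w h
  have h1 : (z - p)⁻¹ = (w - p)⁻¹ := by simpa only [one_div] using h
  have h2 := inv_injective h1
  linear_combination h2

lemma M_cont {p : ℂ} {J : Set ℂ} (hp : p ∉ J) : ContinuousOn (fun z : ℂ => 1 / (z - p)) J := by
  refine ContinuousOn.div continuousOn_const (continuousOn_id.sub continuousOn_const) ?_
  intro z hz h
  have : z = p := by linear_combination h
  exact hp (this ▸ hz)

lemma M_sub {z p q : ℂ} (hz : z - p ≠ 0) (hq : q - p ≠ 0) :
    1 / (z - p) - 1 / (q - p) = (z - q) / (z - p) * (-1 / (q - p)) := by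
  field_simp
  ring

/-- MODULE TMO. -/
theorem hTMO (hTPB : StTPB) (hTSA : StTSA) (hTJ2 : StTJ2) : StTMO := by
  obtain ⟨hpull, htrans, hmul, hzpow, -, hcongr⟩ := hTPB
  intro β J p hP hp
  obtain ⟨hβc, hβi, hβJ⟩ := hP
  have hpJ : p ∉ J := hp.1
  have hMc := M_cont hpJ
  have hJc : IsCompact J := by
    rw [← hβJ]
    exact (isCompact_sphere (0 : ℂ) 1).image_of_continuousOn hβc
  have hmaps : MapsTo β SS J := by
    intro z hz
    rw [← hβJ]
    exact mem_image_of_mem β hz
  have hzp : ∀ z ∈ J, z - p ≠ 0 := by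
    intro z hz h
    have : z = p := by linear_combination h
    exact hpJ (this ▸ hz)
  refine ⟨⟨hMc.comp hβc hmaps, ?_, ?_⟩, ?_⟩
  · intro a ha b hb hab
    exact hβi ha hb (M_inj p hab)
  · rw [← hβJ, image_image]
  -- transport of logarithms
  have key1 : ∀ w : ℂ, LogOn ((fun z : ℂ => 1 / (z - p)) '' J) (fun z => z - w) →
      LogOn J (fun z => 1 / (z - p) - w) := fun w h =>
    hpull J ((fun z : ℂ => 1 / (z - p)) '' J) (fun z : ℂ => 1 / (z - p)) (fun z => z - w) hMc
      (mapsTo_image _ _) h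
  have key2 : ∀ w : ℂ, LogOn J (fun z => 1 / (z - p) - w) →
      LogOn ((fun z : ℂ => 1 / (z - p)) '' J) (fun z => z - w) := fun w h =>
    htrans J (fun z : ℂ => 1 / (z - p)) (fun z => z - w) hJc hMc (M_inj p).injOn h
  ext w
  by_cases hw : w = 0
  · subst hw
    refine ⟨fun _ => Or.inl rfl, fun _ => ⟨?_, ?_⟩⟩
    · rintro ⟨z, hz, h⟩
      exact one_div_ne_zero (hzp z hz) h
    · intro h
      have h1 := hzpow J _ (-1) (key1 0 h)
      apply hp.2
      refine hcongr J J _ _ Subset.rfl h1 ?_
      intro z hz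
      simp
  · have hq0 : ∃ q : ℂ, 1 / (q - p) = w ∧ q - p ≠ 0 := by
      refine ⟨p + 1 / w, ?_, ?_⟩
      · simp
      · simp [hw]
    obtain ⟨q, hqw, hqp⟩ := hq0
    have hJ' : w ∈ (fun z : ℂ => 1 / (z - p)) '' J ↔ q ∈ J := by
      constructor
      · rintro ⟨z, hz, h⟩
        have : z = q := M_inj p (h.trans hqw.symm)
        exact this ▸ hz
      · intro h
        exact ⟨q, h, hqw⟩
    have hout : w ∈ ({0} ∪ (fun z : ℂ => 1 / (z - p)) '' (out J) : Set ℂ) ↔ q ∈ out J := by
      constructor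
      · rintro (h | ⟨z, hz, h⟩)
        · exact absurd h hw
        · have : z = q := M_inj p (h.trans hqw.symm)
          exact this ▸ hz
      · intro h
        exact Or.inr ⟨q, h, hqw⟩
    rw [hout]
    constructor
    · rintro ⟨h1, h2⟩
      rw [hJ'] at h1
      by_contra h3
      have h4 : q ∈ inn J := ⟨h1, fun h => h3 ⟨h1, h⟩⟩
      apply h2
      apply key2
      have h5 := hTSA.1 J (inn J) q p hJc (hTJ2 β J ⟨hβc, hβi, hβJ⟩).2.2.1
        (Set.disjoint_left.2 fun x hx => hx.1) h4 hp
      have h6 := hmul J _ _ h5 (logOn_const J (c := -1 / (q - p))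
        (div_ne_zero (by norm_num) hqp))
      refine hcongr J J _ _ Subset.rfl h6 ?_
      intro z hz
      rw [← hqw, M_sub (hzp z hz) hqp]
    · rintro ⟨h1, h2⟩
      refine ⟨fun h => h1 (hJ'.1 h), fun h => ?_⟩
      have h3 := hzpow J _ (-1) (key1 w h)
      have h4 := hmul J _ _ (hmul J _ _ h2 h3) (logOn_const J (c := -1 / (q - p))
        (div_ne_zero (by norm_num) hqp))
      apply hp.2
      refine hcongr J J _ _ Subset.rfl h4 ?_
      intro z hz
      have hzq : z - q ≠ 0 := by
        intro h5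
        have : z = q := by linear_combination h5
        exact h1 (this ▸ hz)
      have hz' := hzp z hz
      simp only [← hqw, M_sub hz' hqp, _root_.zpow_neg_one]
      field_simp

end Pool.Agent.Helper40.QD
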